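import Mathlib
import Pool.Agent.Lib.MP_e0197a_co.Main

set_option autoImplicit false

namespace Pool.Agent.Results.MP_e0197a_co.MatchingRigid

/-- `F` is a face of `P` (the set of maximisers on `P` of a linear functional) of dimension `k`.
Dimension 2: the panels. Dimension 1: the edges. -/
def IsFace (P : Set (EuclideanSpace ℝ (Fin 3))) (k : ℕ) (F : Set (EuclideanSpace ℝ (Fin 3))) :
    Prop :=
  IsExposed ℝ P F ∧ Module.finrank ℝ (vectorSpan ℝ F) = k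

/-- A paneled convex polyhedron cut along a matching `M` is rigid. -/
theorem result (V : Finset (EuclideanSpace ℝ (Fin 3))) (P : Set (EuclideanSpace ℝ (Fin 3)))
    (hP : P = convexHull ℝ (V : Set (EuclideanSpace ℝ (Fin 3)))) (hint : (interior P).Nonempty)
    (M : Set (Set (EuclideanSpace ℝ (Fin 3)))) (_hM : ∀ e ∈ M, IsFace P 1 e)
    (hmatch : ∀ e ∈ M, ∀ e' ∈ M, e ≠ e' → ∀ v ∈ P.extremePoints ℝ, ¬ (v ∈ e ∧ v ∈ e'))
    (φ : Set (EuclideanSpace ℝ (Fin 3)) → unitInterval →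
      EuclideanSpace ℝ (Fin 3) ≃ᵢ EuclideanSpace ℝ (Fin 3))
    (hstart : ∀ F, IsFace P 2 F → ∀ x ∈ F, φ F 0 x = x)
    (hcont : ∀ F, IsFace P 2 F → ∀ x ∈ F, Continuous fun t => φ F t x)
    (hhinge : ∀ e, IsFace P 1 e → e ∉ M → ∀ F G, IsFace P 2 F → IsFace P 2 G → e ⊆ F → e ⊆ G →
      ∀ t, ∀ x ∈ e, φ F t x = φ G t x) :
    ∀ t, ∃ ψ : EuclideanSpace ℝ (Fin 3) ≃ᵢ EuclideanSpace ℝ (Fin 3),
      ∀ F, IsFace P 2 F → ∀ x ∈ F, φ F t x = ψ x := by
  subst hP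
  obtain ⟨U, hU, hext, hhull⟩ := Pool.Agent.Lib.MP_e0197a_co.exists_good V hint
  rw [← hext] at hmatch
  rw [← hhull] at hstart hcont hhinge ⊢
  exact Pool.Agent.Lib.MP_e0197a_co.rigid_good hU M hmatch φ hstart hcont hhinge

end Pool.Agent.Results.MP_e0197a_co.MatchingRigid
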